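import Mathlib
import Pool.Agent.H.MP_e5d137_al.GLn.Final
import Pool.Agent.H.MP_e5d137_al.SL.FinalLog
import Pool.Agent.H.MP_e5d137_al.SL.PFin

/-!
# The growth of the isoperimetric functions of `GL(n,ℤ)` above the rank
-/

open Pool.Agent.H.MP_e5d137_al
open scoped ENNReal

/-- Let `n ≥ 2` and `m ≥ n - 1`.  The `m`-dimensional homological isoperimetric function of
`GL(n,ℤ)` is bounded above by a polynomial, whose degree depends only on `n` and `m`.  It is bounded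
below by `L log L` if `m < n (n - 1) / 2`, and by `L ^ (Q / (Q - 1))` if
`m + 1 = ∑_{r=1}^k s_r (s_{r-1} - s_r)` for a flag `n = s_0 ≥ s_1 ≥ ... ≥ s_k > 0`, where
`Q = ∑_{r=1}^k s_r (n - s_r)`. -/
theorem Pool.Agent.H.MP_e5d137_al.Cand.GLnPolynomial3 (n m : ℕ) (hn : 2 ≤ n)
    (hnm : n - 1 ≤ m) :
    (∃ c : ℕ, ∀ K : GComplex (Matrix.GeneralLinearGroup (Fin n) ℤ), K.FiniteTo (m + 1) →
      Dominated (fun L => (K.iso m L : ℝ≥0∞)) (fun L => (L : ℝ≥0∞) ^ c)) ∧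
    (m < n * (n - 1) / 2 →
      ∀ K : GComplex (Matrix.GeneralLinearGroup (Fin n) ℤ), K.FiniteTo (m + 1) →
      Dominated SL.LlogL (fun L => (K.iso m L : ℝ≥0∞))) ∧
    (∀ (s : ℕ → ℕ) (k : ℕ), Antitone s → s 0 = n → 0 < s k →
      m + 1 = ∑ r ∈ Finset.range k, s (r + 1) * (s r - s (r + 1)) →
      ∀ K : GComplex (Matrix.GeneralLinearGroup (Fin n) ℤ), K.FiniteTo (m + 1) →
      Dominated (SL.powQ (∑ r ∈ Finset.range k, s (r + 1) * (n - s (r + 1))))
        (fun L => (K.iso m L : ℝ≥0∞))) :=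
  ⟨GLn.upper_poly n m (by omega) (by omega) (by omega),
    fun hmn K hK => SL.log_GL n m (by omega) hmn K hK,
    fun s k hs h0 hk hd K hK => SL.pow_GL s hs h0 k hk m (by omega) hd K hK⟩
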