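import Mathlib
import Pool.Agent.H.MP_e5d137_al.GLn.Final
import Pool.Agent.H.MP_e5d137_al.SL.FinalLog

/-!
# The growth of the isoperimetric functions of `GL(n,ℤ)`
-/

open Pool.Agent.H.MP_e5d137_al
open scoped ENNReal

/-- Let `n ≥ 2`.  For `m ≥ n - 1` the `m`-dimensional homological isoperimetric function of
`GL(n,ℤ)` is bounded above by a polynomial, whose degree depends only on `n` and `m`.  For
`1 ≤ m < n (n - 1) / 2` it is bounded below by `L log L`. -/
theorem Pool.Agent.H.MP_e5d137_al.Cand.GLnPolynomialLog (n : ℕ) (hn : 2 ≤ n) :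
    (∀ m : ℕ, n - 1 ≤ m → ∃ c : ℕ, ∀ K : GComplex (Matrix.GeneralLinearGroup (Fin n) ℤ),
      K.FiniteTo (m + 1) →
      Dominated (fun L => (K.iso m L : ℝ≥0∞)) (fun L => (L : ℝ≥0∞) ^ c)) ∧
    (∀ m : ℕ, 1 ≤ m → m < n * (n - 1) / 2 →
      ∀ K : GComplex (Matrix.GeneralLinearGroup (Fin n) ℤ), K.FiniteTo (m + 1) →
      Dominated SL.LlogL (fun L => (K.iso m L : ℝ≥0∞))) :=
  ⟨fun m hm => GLn.upper_poly n m (by omega) (by omega) (by omega),
    fun m hm hmn K hK => SL.log_GL n m hm hmn K hK⟩
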